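import Mathlib
import Pool.Agent.H54.NetCode

namespace Pool.Agent.Results.MP_cbd396_lc.Unbounded

open Pool.Agent.H54.NetCode

theorem result (C : ℕ) : ∃ (V ι : Type) (_ : Fintype V) (_ : Fintype ι) (E : V → V → Prop)
    (s t : ι → V), (∀ v, ¬ Relation.TransGen E v v) ∧ (∀ i, s i ≠ t i) ∧
    ∃ B : ℝ, (∀ ρ ∈ rates E s t, ρ ≤ B) ∧
      ∀ M : Finset (V × V), IsMulticut E s t M → C * B < M.card :=
  main C

end Pool.Agent.Results.MP_cbd396_lc.Unbounded
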